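import Pool.Agent.Helper1.MT.Defs

/-!
# Project MT, MT-G: the quadratic forms of the sieve (GramUpper and GramLower)
-/

set_option autoImplicit false

open Finset

namespace Pool.Agent.Helper9.MT

open Pool.Agent.Helper1.MT

/-- A tensor product of local quadratic forms. -/
def Phi {ι O : Type} [Fintype ι] [Fintype O] [DecidableEq ι] (π : ι → O → ℝ)
    (l : ι → O → O → ℝ) (y : (ι → O) → ℝ) : ℝ :=
  ∑ s : ι → O, (∏ p, π p (s p)) * (∑ a : ι → O, (∏ p, l p (s p) (a p)) * y a) ^ 2

theorem sum_option_fun {ι O : Type} [Fintype ι] [Fintype O] [DecidableEq ι]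
    [DecidableEq (Option ι)] (f : (Option ι → O) → ℝ) :
    ∑ s : Option ι → O, f s =
      ∑ u : O, ∑ s : ι → O, f (fun p => Option.elim p u s) := by
  rw [← Fintype.sum_prod_type' (f := fun (u : O) (s : ι → O) => f (fun p => Option.elim p u s))]
  refine Fintype.sum_equiv (Equiv.piOptionEquivProd (β := fun _ : Option ι => O)) _ _ ?_
  intro s
  congr 1
  funext p
  cases p <;> rfl

theorem tensor (ι : Type) [Fintype ι] : ∀ [DecidableEq ι] (O : Type) [Fintype O]
    (β π : ι → O → ℝ) (k l : ι → O → O → ℝ), (∀ p s, 0 ≤ β p s) → (∀ p s, 0 ≤ π p s) →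
    (∀ p (b : O → ℝ), ∑ s, β p s * (∑ a, k p s a * b a) ^ 2 ≤
      ∑ s, π p s * (∑ a, l p s a * b a) ^ 2) →
    ∀ y : (ι → O) → ℝ, Phi β k y ≤ Phi π l y := by
  refine Fintype.induction_empty_option (P := fun ι [Fintype ι] => ∀ [DecidableEq ι] (O : Type)
    [Fintype O] (β π : ι → O → ℝ) (k l : ι → O → O → ℝ), (∀ p s, 0 ≤ β p s) →
    (∀ p s, 0 ≤ π p s) →
    (∀ p (b : O → ℝ), ∑ s, β p s * (∑ a, k p s a * b a) ^ 2 ≤
      ∑ s, π p s * (∑ a, l p s a * b a) ^ 2) →
    ∀ y : (ι → O) → ℝ, Phi β k y ≤ Phi π l y) ?_ ?_ ?_ ι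
  · intro α β' _ e h _ O _ β π k l hβ hπ hl y
    classical
    let _ : Fintype α := Fintype.ofEquiv β' e.symm
    have key : ∀ (π : β' → O → ℝ) (l : β' → O → O → ℝ),
        Phi π l y = Phi (fun p => π (e p)) (fun p => l (e p))
          (fun a => y (fun q => a (e.symm q))) := by
      intro π l
      unfold Phi
      refine Fintype.sum_equiv (Equiv.arrowCongr e.symm (Equiv.refl O)) _ _ ?_
      intro s
      have h1 : ∏ p, π p (s p) =
          ∏ p, π (e p) ((Equiv.arrowCongr e.symm (Equiv.refl O)) s p) := by
        rw [← Equiv.prod_comp e]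
        rfl
      rw [h1]
      congr 2
      refine Fintype.sum_equiv (Equiv.arrowCongr e.symm (Equiv.refl O)) _ _ ?_
      intro a
      have h2 : ∏ p, l p (s p) (a p) =
          ∏ p, l (e p) ((Equiv.arrowCongr e.symm (Equiv.refl O)) s p)
            ((Equiv.arrowCongr e.symm (Equiv.refl O)) a p) := by
        rw [← Equiv.prod_comp e]
        rfl
      rw [h2]
      congr 2
      funext q
      simp [Equiv.arrowCongr]
    rw [key, key]
    exact h O _ _ _ _ (fun p s => hβ (e p) s) (fun p s => hπ (e p) s)
      (fun p b => hl (e p) b) _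
  · intro _ O _ β π k l _ _ _ y
    unfold Phi
    simp
  · intro α _ ih _ O _ β π k l hβ hπ hl y
    classical
    have key : ∀ (π : Option α → O → ℝ) (l : Option α → O → O → ℝ),
        Phi π l y = ∑ u : O, π none u * Phi (fun p => π (some p)) (fun p => l (some p))
          (fun a => ∑ v : O, l none u v * y (fun p => Option.elim p v a)) := by
      intro π l
      unfold Phi
      rw [sum_option_fun]
      refine Finset.sum_congr rfl fun u _ => ?_
      rw [Finset.mul_sum]
      refine Finset.sum_congr rfl fun s _ => ?_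
      rw [Fintype.prod_option, mul_assoc]
      simp only [Option.elim]
      congr 3
      rw [sum_option_fun, Finset.sum_comm]
      refine Finset.sum_congr rfl fun a _ => ?_
      rw [Finset.mul_sum]
      refine Finset.sum_congr rfl fun v _ => ?_
      rw [Fintype.prod_option]
      simp only [Option.elim]
      ring
    have key2 : ∀ (π0 : O → ℝ) (l0 : O → O → ℝ),
        ∑ u : O, π0 u * Phi (fun p => π (some p)) (fun p => l (some p))
          (fun a => ∑ v : O, l0 u v * y (fun p => Option.elim p v a)) =
        ∑ s : α → O, (∏ p, π (some p) (s p)) * ∑ u : O, π0 u * (∑ v : O, l0 u v *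
          ∑ a : α → O, (∏ p, l (some p) (s p) (a p)) * y (fun p => Option.elim p v a)) ^ 2 := by
      intro π0 l0
      unfold Phi
      simp_rw [Finset.mul_sum]
      rw [Finset.sum_comm]
      refine Finset.sum_congr rfl fun s _ => Finset.sum_congr rfl fun u _ => ?_
      rw [mul_left_comm]
      congr 3
      rw [Finset.sum_comm]
      refine Finset.sum_congr rfl fun v _ => Finset.sum_congr rfl fun a _ => ?_
      ring
    rw [key β k, key π l]
    calc ∑ u : O, β none u * Phi (fun p => β (some p)) (fun p => k (some p))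
          (fun a => ∑ v : O, k none u v * y (fun p => Option.elim p v a))
        ≤ ∑ u : O, β none u * Phi (fun p => π (some p)) (fun p => l (some p))
          (fun a => ∑ v : O, k none u v * y (fun p => Option.elim p v a)) := by
          refine Finset.sum_le_sum fun u _ => mul_le_mul_of_nonneg_left ?_ (hβ none u)
          exact ih O _ _ _ _ (fun p s => hβ (some p) s) (fun p s => hπ (some p) s)
            (fun p b => hl (some p) b) _
      _ = _ := key2 (β none) (k none)
      _ ≤ _ := by
          refine Finset.sum_le_sum fun s _ => mul_le_mul_of_nonneg_left ?_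
            (Finset.prod_nonneg fun p _ => hπ (some p) (s p))
          exact hl none _
      _ = _ := (key2 (π none) (l none)).symm

section Local

variable {ι κ : Type} [Fintype ι] [Fintype κ] [DecidableEq ι] [DecidableEq κ]

/-- The local factor of the sums over all colourings below a given one. -/
def loc (w : ℝ) (s a : Option κ) : ℝ := ∑ b ∈ ({none, s} : Finset (Option κ)), inv w b a

theorem sum_le (w : ι → ℝ) (y : (ι → Option κ) → ℝ) (σ : ι → Option κ) :
    ∑ c ∈ univ.filter (fun c : ι → Option κ => Le c σ), lam w y c =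
      ∑ c' : ι → Option κ, (∏ p, loc (w p) (σ p) (c' p)) * y c' := by
  unfold lam
  rw [Finset.sum_comm]
  refine Finset.sum_congr rfl fun c' _ => ?_
  rw [← Finset.sum_mul]
  congr 1
  unfold loc
  rw [Finset.prod_univ_sum]
  refine Finset.sum_congr ?_ fun _ _ => rfl
  ext c
  simp [Le, Fintype.mem_piFinset]

theorem Qf_eq (P : ι → Option κ → ℝ) (w : ι → ℝ) (y : (ι → Option κ) → ℝ) :
    Qf P (lam w y) = Phi P (fun p => loc (w p)) y := by
  unfold Qf Phi
  refine Finset.sum_congr rfl fun σ _ => ?_
  rw [sum_le]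

theorem loc_none (w : ℝ) (b : Option κ → ℝ) :
    ∑ a, loc w none a * b a = b none - w * ∑ i, b (some i) := by
  rw [Fintype.sum_option]
  simp only [loc, Finset.pair_eq_singleton, Finset.sum_singleton, inv]
  rw [Finset.mul_sum, one_mul, sub_eq_add_neg, ← Finset.sum_neg_distrib]
  congr 1
  exact Finset.sum_congr rfl fun _ _ => by ring

theorem loc_some (w : ℝ) (b : Option κ → ℝ) (i : κ) :
    ∑ a, loc w (some i) a * b a = b none - w * ∑ i, b (some i) + b (some i) := by
  rw [Fintype.sum_option]
  have h : (none : Option κ) ≠ some i := by simp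
  simp only [loc, Finset.sum_pair h, inv]
  have : ∀ x : κ, (-w + if i = x then (1 : ℝ) else 0) * b (some x) =
      -(w * b (some x)) + if i = x then b (some x) else 0 := by
    intro x
    split_ifs <;> ring
  simp_rw [this]
  rw [Finset.sum_add_distrib, Finset.sum_neg_distrib, ← Finset.mul_sum]
  simp
  ring

theorem local_upper (w : ℝ) (b : Option κ → ℝ) :
    ∑ s, pr κ w s * (∑ a, loc w s a * b a) ^ 2 ≤ b none ^ 2 + w * ∑ i, b (some i) ^ 2 := by
  rw [Fintype.sum_option, loc_none]
  simp_rw [loc_some, pr]
  set v : ℝ := b none - w * ∑ i, b (some i) with hv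
  have h1 : ∑ i, w * (v + b (some i)) ^ 2 =
      Fintype.card κ * w * v ^ 2 + 2 * w * v * ∑ i, b (some i) + w * ∑ i, b (some i) ^ 2 := by
    have : ∀ i, w * (v + b (some i)) ^ 2 =
        w * v ^ 2 + 2 * w * v * b (some i) + w * b (some i) ^ 2 := fun i => by ring
    simp_rw [this]
    rw [Finset.sum_add_distrib, Finset.sum_add_distrib, Finset.sum_const, ← Finset.mul_sum,
      ← Finset.mul_sum, Finset.card_univ, nsmul_eq_mul]
    ring
  rw [h1]
  have h2 : b none = v + w * ∑ i, b (some i) := by rw [hv]; ring
  rw [h2]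
  nlinarith [sq_nonneg (w * ∑ i, b (some i))]

theorem ker_none (m : κ) (w w' : ℝ) (b : Option κ → ℝ) :
    ∑ a, ker m w w' none a * b a =
      b none - w * ∑ i, b (some i) + w' * ∑ i ∈ univ.filter (fun i => i ≠ m), b (some i) := by
  rw [Fintype.sum_option]
  simp only [ker]
  have h : ∀ x : κ, (if x = m then -w else w' - w) * b (some x) =
      -(w * b (some x)) + w' * (if x ≠ m then b (some x) else 0) := by
    intro x
    by_cases hx : x = m
    · simp [hx]
    · simp [hx]
      ring
  simp_rw [h]
  rw [Finset.sum_add_distrib, Finset.sum_neg_distrib, ← Finset.mul_sum, ← Finset.mul_sum,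
    Finset.sum_filter]
  ring

theorem ker_some (m : κ) (w w' : ℝ) (b : Option κ → ℝ) (i : κ) :
    ∑ a, ker m w w' (some i) a * b a = b (some i) := by
  rw [Fintype.sum_option]
  simp [ker]

/-- The local weights in the lower bound. -/
def wlow (m : κ) (w' : ℝ) : Option κ → ℝ
  | none => 1
  | some i => if i = m then 0 else w' * (1 - ((Fintype.card κ : ℝ) - 1) * w')

theorem local_lower (m : κ) (w w' : ℝ) (b : Option κ → ℝ) :
    ∑ s, wlow m w' s * (∑ a, ker m w w' s a * b a) ^ 2 ≤
      ∑ s, prm m w' s * (∑ a, loc w s a * b a) ^ 2 := by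
  rw [Fintype.sum_option, ker_none, Fintype.sum_option, loc_none]
  simp_rw [loc_some, ker_some, prm, wlow]
  set v : ℝ := b none - w * ∑ i, b (some i) with hv
  set F : Finset κ := univ.filter (fun i => i ≠ m) with hF
  have hcard : (F.card : ℝ) = (Fintype.card κ : ℝ) - 1 := by
    have h1 : F = univ.erase m := by
      ext i
      simp [hF]
    rw [h1, Finset.card_erase_of_mem (Finset.mem_univ m), Finset.card_univ,
      Nat.cast_sub (Fintype.card_pos_iff.2 ⟨m⟩)]
    simp
  have h1 : ∑ i, (if i = m then (0 : ℝ) else w') * (v + b (some i)) ^ 2 =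
      F.card * w' * v ^ 2 + 2 * w' * v * ∑ i ∈ F, b (some i) + w' * ∑ i ∈ F, b (some i) ^ 2 := by
    have h2 : ∑ i, (if i = m then (0 : ℝ) else w') * (v + b (some i)) ^ 2 =
        ∑ i ∈ F, w' * (v + b (some i)) ^ 2 := by
      rw [hF, Finset.sum_filter]
      refine Finset.sum_congr rfl fun i _ => ?_
      by_cases hi : i = m <;> simp [hi]
    rw [h2]
    have : ∀ i, w' * (v + b (some i)) ^ 2 =
        w' * v ^ 2 + 2 * w' * v * b (some i) + w' * b (some i) ^ 2 := fun i => by ring
    simp_rw [this]
    rw [Finset.sum_add_distrib, Finset.sum_add_distrib, Finset.sum_const, ← Finset.mul_sum,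
      ← Finset.mul_sum, nsmul_eq_mul]
    ring
  have h3 : ∑ i, (if i = m then (0 : ℝ) else w' * (1 - ((Fintype.card κ : ℝ) - 1) * w')) *
      b (some i) ^ 2 =
      w' * (1 - ((Fintype.card κ : ℝ) - 1) * w') * ∑ i ∈ F, b (some i) ^ 2 := by
    rw [hF, Finset.sum_filter, Finset.mul_sum]
    refine Finset.sum_congr rfl fun i _ => ?_
    by_cases hi : i = m <;> simp [hi]
  rw [h1, h3, ← hcard]
  have h4 : (∑ i ∈ F, b (some i)) ^ 2 ≤ F.card * ∑ i ∈ F, b (some i) ^ 2 :=
    sq_sum_le_card_mul_sum_sq
  have h5 : w' ^ 2 * (∑ i ∈ F, b (some i)) ^ 2 ≤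
      w' ^ 2 * (F.card * ∑ i ∈ F, b (some i) ^ 2) :=
    mul_le_mul_of_nonneg_left h4 (sq_nonneg _)
  nlinarith [h5]

end Local

theorem prod_delta {ι O : Type} [Fintype ι] [DecidableEq O] [DecidableEq (ι → O)]
    (s a : ι → O) : (∏ p, (if s p = a p then (1 : ℝ) else 0)) = if s = a then 1 else 0 := by
  by_cases h : s = a
  · subst h
    simp
  · rw [if_neg h]
    obtain ⟨p, hp⟩ := Function.ne_iff.1 h
    exact Finset.prod_eq_zero (Finset.mem_univ p) (by simp [hp])

theorem gramUpper : GramUpper := by
  intro ι κ _ _ _ _ w y hw hK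
  rw [Qf_eq]
  let W : ι → Option κ → ℝ := fun p s => if s ≠ none then w p else 1
  have h : Phi (fun p => pr κ (w p)) (fun p => loc (w p)) y ≤
      Phi W (fun _ s a => if s = a then (1 : ℝ) else 0) y := by
    refine tensor ι (Option κ) _ _ _ _ ?_ ?_ ?_ y
    · intro p s
      cases s with
      | none => simp only [pr]; linarith [hK p]
      | some i => exact hw p
    · intro p s
      cases s with
      | none => simp [W]
      | some i => simpa [W] using hw p
    · intro p b
      refine (local_upper (w p) b).trans (le_of_eq ?_)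
      rw [Fintype.sum_option]
      simp [W, Finset.mul_sum]
  refine h.trans (le_of_eq ?_)
  unfold Phi
  refine Finset.sum_congr rfl fun s _ => ?_
  have h1 : ∏ p, W p (s p) = ws w (supp s) := by
    unfold ws supp
    rw [Finset.prod_filter]
  rw [h1]
  congr 2
  classical
  simp_rw [prod_delta]
  simp

theorem gramLower : GramLower := by
  intro ι κ _ _ _ _ w w' m y hw hK
  rw [Qf_eq]
  have hm : (1 : ℝ) ≤ (Fintype.card κ : ℝ) := by
    exact_mod_cast Fintype.card_pos_iff.2 ⟨m⟩
  have hnn : ∀ p, 0 ≤ 1 - ((Fintype.card κ : ℝ) - 1) * w' p := by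
    intro p
    have := hK p
    have := hw p
    nlinarith
  have h : Phi (fun p => wlow m (w' p)) (fun p => ker m (w p) (w' p)) y ≤
      Phi (fun p => prm m (w' p)) (fun p => loc (w p)) y := by
    refine tensor ι (Option κ) _ _ _ _ ?_ ?_ ?_ y
    · intro p s
      cases s with
      | none => simp [wlow]
      | some i =>
        simp only [wlow]
        split_ifs
        · exact le_refl _
        · exact mul_nonneg (hw p) (hnn p)
    · intro p s
      cases s with
      | none => exact hnn p
      | some i =>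
        simp only [prm]
        split_ifs
        · exact le_refl _
        · exact hw p
    · intro p b
      exact local_lower m (w p) (w' p) b
  refine le_trans (le_of_eq ?_) h
  unfold Phi
  rw [Finset.sum_filter]
  refine Finset.sum_congr rfl fun c _ => ?_
  by_cases hc : cls c m = ∅
  · rw [if_pos hc]
    unfold ym
    congr 1
    unfold supp
    rw [Finset.prod_filter]
    refine Finset.prod_congr rfl fun p _ => ?_
    have hp : c p ≠ some m := by
      intro h'
      have : p ∈ cls c m := by simp [cls, h']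
      rw [hc] at this
      simp at this
    cases hcp : c p with
    | none => simp [wlow]
    | some i =>
      have : i ≠ m := by
        rintro rfl
        exact hp hcp
      simp [wlow, this]
  · rw [if_neg hc]
    obtain ⟨p, hp⟩ := Finset.nonempty_iff_ne_empty.2 hc
    have hp' : c p = some m := by simpa [cls] using hp
    have h0 : ∏ p, wlow m (w' p) (c p) = 0 :=
      Finset.prod_eq_zero (Finset.mem_univ p) (by simp [hp', wlow])
    rw [h0, zero_mul]

end Pool.Agent.Helper9.MT
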